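import Pool.Agent.Work.MP_8f87b2_h13.TyR3
import Pool.Agent.Work.MP_8f87b2_h89.R3A

/-!
# MP_8f87b2_co: right windows of bare T-cycles, `c = 3`, against the H1 windows (rows W-R3-A, W-S3-A)

From `NodeM.disjGr` (helper89): no common word if no marker of the window is `()()X`, `X` heavy (`TyAo`).
-/

set_option autoImplicit false
set_option linter.all false

namespace Pool.OddHC

open HM Equiv Pool.Agent.Work.MP_8f87b2_co

variable {k : ℕ} {F F' : Set (Cyc k)} {g g' : DG k}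

/-- **row W-R3-A** -/
theorem TyR3.disA (h : TyR3 F g) (h' : TyAo F' g') : ∀ w ∈ g.B, w ∉ g'.B := by
  intro w hw hw'
  obtain ⟨R, B, S, w0, i, h1, -, -, hi, rfl, hm⟩ := h.words w hw
  obtain ⟨q', B1', H', s', B', w0', h1', hH, rfl, rfl⟩ := h'
  obtain ⟨j, hj, e⟩ := mem_gad20.1 hw'
  exact h1.disjGr h1' (hH 0) w0' w0 hj hi e

/-- **row W-S3-A** -/
theorem TyS3.disA (h : TyS3 F g) (h' : TyAo F' g') : ∀ w ∈ g.B, w ∉ g'.B := by
  intro w hw hw'
  obtain ⟨R, B, S, w0, i, h1, -, hi, -, rfl, hm⟩ := h.words w hw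
  obtain ⟨q', B1', H', s', B', w0', h1', hH, rfl, rfl⟩ := h'
  obtain ⟨j, hj, e⟩ := mem_gad20.1 hw'
  exact h1.disjGr h1' (hH 0) w0' w0 hj hi e

end Pool.OddHC
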