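import Pool.Agent.Work.MP_8f87b2_h13.TyRq
import Pool.Agent.Work.MP_8f87b2_h89.R3A
import Pool.Agent.Work.MP_8f87b2_h60.InAr

/-!
# MP_8f87b2_co: right windows of bare T-cycles, every `c = q + 3`, against the H1 windows (word rows)

`NodeM.disjGq`: no common word if no marker of the window is `Q()X`, `X` heavy, or if the window has a smaller `c`.
Rows: TyRq / TySq against TyAo and TyAq, TyR3 / TyS3 against TyAq.
-/

set_option autoImplicit false
set_option linter.all false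

namespace Pool.OddHC

namespace HM

open BinaryTree H1 Equiv

variable {k q q' : ℕ} {R B S R' B' S' : BinaryTree Unit}

/-- the decomposition of the words of a window, if the inside of the first marked component has no marker -/
theorem split_Wq (h : Adm (q + 1) R B S) {i : ℕ} (hi : i < 20)
    (h0 : am (split (W R (ch (q + 1)) B S i)).2.1 = false) :
    ∃ B1 P p s, hv B1 ∧ PB P = true ∧ R = app B1 (P △ B) ∧
      split (W R (ch (q + 1)) B S i) = (p, P, s) ∧
      ((p = B1 ∧ s = app B ((ch (q + 1) △ .nil) △ .nil)) ∨ (p = B1 ∧ s ≠ .nil ∧ lastB s = true) ∨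
      (p ≠ .nil ∧ s ≠ .nil) ∨
      p = (app (ch (q + 1)) (.nil △ .nil)) △ B1 ∨ p = ch (q + 1) △ (.nil △ B1)) := by
  have hidx : idx (W R (ch (q + 1)) B S i) = i := by
    rcases lt_or_ge i 10 with h1 | h1
    · exact idx_lo h i h1
    · exact idx_hi h i h1 hi
  rw [idx, if_neg (by rw [h0]; simp)] at hidx
  obtain ⟨B1, P, h1, h2, h3, rfl⟩ := h.hR
  have mP := mk_of_PB h2
  have aB1 := hv_am h1
  have hi5 : i = 0 ∨ i = 1 ∨ i = 2 ∨ i = 4 ∨ i = 5 := by
    unfold idx0 at hidx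
    split_ifs at hidx <;> omega
  rcases hi5 with rfl | rfl | rfl | rfl | rfl
  · have e : W (app B1 (P △ B)) (ch (q + 1)) B S 0 = app B1 (P △ app B ((ch (q + 1) △ .nil) △ .nil)) := by
      change app (app B1 (P △ B)) _ = _
      rw [H1.app_assoc]; rfl
    exact ⟨B1, P, _, _, h1, h2, rfl, by rw [e, split_app aB1 mP], Or.inl ⟨rfl, rfl⟩⟩
  · have e : W (app B1 (P △ B)) (ch (q + 1)) B S 1 =
        app B1 (P △ app B (.nil △ app (ch (q + 1)) (.nil △ .nil))) := by
      change app (app B1 (P △ B)) _ = _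
      rw [H1.app_assoc]; rfl
    refine ⟨B1, P, _, _, h1, h2, rfl, by rw [e, split_app aB1 mP],
      Or.inr (Or.inl ⟨rfl, app_ne (by simp), ?_⟩)⟩
    rw [lastB_app (by simp), lastB_cons (app_ne (by simp)), lastB_app (by simp), lastB_one]
    rfl
  · have e : W (app B1 (P △ B)) (ch (q + 1)) B S 2 =
        app (.nil △ B1) (P △ app B (.nil △ ch (q + 1))) := by
      change .nil △ app (app B1 (P △ B)) _ = _
      rw [H1.app_assoc]; rfl
    exact ⟨B1, P, _, _, h1, h2, rfl, by rw [e, split_app (by rw [am_node, aB1]; rfl) mP],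
      Or.inr (Or.inr (Or.inl ⟨by simp, app_ne (by simp)⟩))⟩
  · have e : W (app B1 (P △ B)) (ch (q + 1)) B S 4 =
        app ((ch q △ (.nil △ .nil)) △ B1) (P △ B) := rfl
    exact ⟨B1, P, _, _, h1, h2, rfl, by rw [e, split_app (by rw [am_node, aB1, mk_chb]; rfl) mP],
      Or.inr (Or.inr (Or.inr (Or.inl (by rfl))))⟩
  · have e : W (app B1 (P △ B)) (ch (q + 1)) B S 5 = app (ch (q + 1) △ (.nil △ B1)) (P △ B) := rfl
    exact ⟨B1, P, _, _, h1, h2, rfl,
      by rw [e, split_app (by rw [am_node, am_node, aB1, mk_ch]; rfl) mP],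
      Or.inr (Or.inr (Or.inr (Or.inr rfl)))⟩

/-- **no common word** of a window with `c` and a bare absorber with `c' > c` in right orientation -/
theorem W_Wq (h : Adm (q + 1) R B S) (h' : Bare R' B' S') (hq : q < q') (hp : ∀ x ∈ cont B', q' + 3 ≤ x)
    {i j : ℕ} (hi : i < 20) (hj : j < 20) :
    W R (ch (q + 1)) B S i ≠ W R' (ch (q' + 1)) B' S' j := by
  intro e
  obtain ⟨a0, a1⟩ := split_Wr (q := q') h' hj
  rw [← e] at a0
  obtain ⟨B1, P, p, s, b1, b2, b3, b4, b5⟩ := split_Wq h hi a0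
  rw [← e, b4] at a1
  have x1 : x4 (ch (q' + 1)) = false := by
    cases q' <;> simp [ch, x4, lastB, len]
  have x2 : x4 ((app (ch (q + 1)) (.nil △ .nil)) △ B1) = true := by
    simp [ch, x4, lastB, len, app, isNil]
  have x3 : app B ((ch (q + 1) △ .nil) △ .nil) ≠ .nil := app_ne (by simp)
  rcases a1 with a1 | ⟨a1, a2⟩ | ⟨a1, a2⟩ | ⟨a1, a3⟩
  · change P = .nil at a1
    rw [a1] at b2
    exact absurd b2 (by simp [PB_nil])
  · change p = ch (q' + 1) at a1
    change s = .nil at a2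
    subst a1 a2
    rcases b5 with b5 | b5 | b5 | b5 | b5
    · exact x3 b5.2.symm
    · exact b5.2.1 rfl
    · exact b5.2 rfl
    · rw [b5, x2] at x1
      exact absurd x1 (by simp)
    · rw [ch_succ] at b5
      simp at b5
  · change p = S' at a1
    change s = .nil at a2
    subst a1 a2
    rcases b5 with b5 | b5 | b5 | b5 | b5
    · exact x3 b5.2.symm
    · exact b5.2.1 rfl
    · exact b5.2 rfl
    · have := hv_x4 h'.hS
      rw [b5, x2] at this
      exact absurd this (by simp)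
    · have := hv_sb h'.hS
      rw [b5] at this
      exact absurd this (by simp [sb, fb, isNil])
  · simp only [Prod.mk.injEq] at a3
    obtain ⟨c1, c2, c3⟩ := a3
    subst c1 c3
    rcases b5 with ⟨c5, c6⟩ | ⟨_, _, c5⟩ | b5 | b5 | b5
    · have c7 : q + 3 ∈ cont s := by
        rw [c6]
        have e1 : ((ch (q + 1) △ .nil) △ .nil : BinaryTree Unit) = ch (q + 2 + 1) := rfl
        rw [e1, cont_app, ch_cont]
        exact Multiset.mem_add.2 (Or.inr (Multiset.mem_singleton.2 rfl))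
      have := hp _ c7
      omega
    · rw [hv_last h'.hB] at c5
      exact absurd c5 (by simp)
    · exact b5.1 rfl
    · simp at b5
    · simp at b5

/-- **right bare windows against A** -/
theorem NodeM.disjGq {B1 H s : BinaryTree Unit} (h' : NodeM k q' R' B' S')
    (h : NodeG k q B1 H s B) (hH : Hok q' H s ∨ q < q') (w0 w0' : X k) {i j : ℕ} (hi : i < 20)
    (hj : j < 20) : gX q B1 H s B w0 i ≠ wX R' B' S' q' w0' j := by
  rcases hH with hH | hq
  · exact h'.disjGr h hH w0 w0' hi hj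
  · intro e
    have e1 := congrArg Subtype.val e
    rw [h.word w0 hi, wX_eq h'.dat h'.size w0' hj] at e1
    refine W_Wq h.adm h'.bareR hq ?_ hi hj e1
    intro x hx
    apply h'.part
    rw [← h'.eq]
    exact Multiset.mem_add.2 (Or.inl hx)

end HM

open HM Equiv Pool.Agent.Work.MP_8f87b2_co

variable {k q : ℕ} {F F' : Set (Cyc k)} {g g' : DG k}

/-- **row W-Rq-A** -/
theorem TyRq.disA (h : TyRq q F g) (h' : TyAo F' g') : ∀ w ∈ g.B, w ∉ g'.B := by
  intro w hw hw'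
  obtain ⟨R, B, S, w0, i, h1, hi, rfl, -⟩ := h.words w hw
  obtain ⟨q', B1', H', s', B', w0', h1', hH, rfl, rfl⟩ := h'
  obtain ⟨j, hj, e⟩ := mem_gad20.1 hw'
  exact h1.disjGq h1' (Or.inl (hH q)) w0' w0 hj hi e

/-- **row W-Rq-Ap** -/
theorem TyRq.disAp (h : TyRq q F g) (h' : TyAp F' g') : ∀ w ∈ g.B, w ∉ g'.B := h.disA h'.toAo

/-- **row W-Rq-Aq** -/
theorem TyRq.disAq (h : TyRq q F g) (h' : TyAq F' g') : ∀ w ∈ g.B, w ∉ g'.B := by
  intro w hw hw'
  obtain ⟨R, B, S, w0, i, h1, hi, rfl, -⟩ := h.words w hw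
  obtain ⟨a, B1', s', B', w0', h1', rfl, rfl⟩ := h'
  obtain ⟨j, hj, e⟩ := mem_gad20.1 hw'
  refine h1.disjGq h1' ?_ w0' w0 hj hi e
  rcases Nat.eq_zero_or_pos q with rfl | hq
  · exact Or.inl Hok_zero
  · exact Or.inr hq

/-- the words of a merged right window -/
theorem TySq.words12 (h : TySq q F g) : ∀ w ∈ g.B, ∃ (R B S : BinaryTree Unit) (w0 : X k) (i : ℕ),
    NodeM k q R B S ∧ i < 20 ∧ w = H1.wX R B S q w0 i := by
  obtain ⟨R, B, S, w0, h1, hne, h12, h18, rfl, rfl⟩ := h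
  intro w hw
  obtain ⟨i, hi, h9, rfl⟩ := memR_gadS.1 hw
  exact ⟨R, B, S, w0, i, h1, hi, rfl⟩

/-- **row W-Sq-A** -/
theorem TySq.disA (h : TySq q F g) (h' : TyAo F' g') : ∀ w ∈ g.B, w ∉ g'.B := by
  intro w hw hw'
  obtain ⟨R, B, S, w0, i, h1, hi, rfl⟩ := h.words12 w hw
  obtain ⟨q', B1', H', s', B', w0', h1', hH, rfl, rfl⟩ := h'
  obtain ⟨j, hj, e⟩ := mem_gad20.1 hw'
  exact h1.disjGq h1' (Or.inl (hH q)) w0' w0 hj hi e

/-- **row W-Sq-Aq** -/
theorem TySq.disAq (h : TySq q F g) (h' : TyAq F' g') : ∀ w ∈ g.B, w ∉ g'.B := by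
  intro w hw hw'
  obtain ⟨R, B, S, w0, i, h1, hi, rfl⟩ := h.words12 w hw
  obtain ⟨a, B1', s', B', w0', h1', rfl, rfl⟩ := h'
  obtain ⟨j, hj, e⟩ := mem_gad20.1 hw'
  refine h1.disjGq h1' ?_ w0' w0 hj hi e
  rcases Nat.eq_zero_or_pos q with rfl | hq
  · exact Or.inl Hok_zero
  · exact Or.inr hq

/-- **row W-R3-Aq** -/
theorem TyR3.disAq (h : TyR3 F g) (h' : TyAq F' g') : ∀ w ∈ g.B, w ∉ g'.B := h.toRq.disAq h'

/-- **row W-S3-Aq** -/
theorem TyS3.disAq (h : TyS3 F g) (h' : TyAq F' g') : ∀ w ∈ g.B, w ∉ g'.B := h.toSq.disAq h'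

end Pool.OddHC
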