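import Pool.Agent.Work.MP_8f87b2_h12.R3A

/-!
# MP_8f87b2_co: right bare windows, `c = 3`, against mirrored bare windows, `c' ≥ 4` (rows W-R3-A0, W-R3-B0, I rows)

`cmpK`: contents; `mT1`, `mT2`, `mT3`: first and last components. Inner words: content, ends, factor `111 0 1`.
-/

set_option autoImplicit false
set_option linter.all false

namespace Pool.OddHC

namespace HM

open BinaryTree H1 Equiv

variable {k q q' : ℕ} {R B S R' B' S' : BinaryTree Unit}

namespace H12

/-- comparison of the contents -/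
theorem cmpK {d K K' : ℕ} {H H' : Multiset ℕ} (hd : 1 ≤ d) (hK : K ≤ 5) (hK' : K' ≤ 5)
    (e : smc 0 K + H = smc d K' + H') (hH : ∀ x ∈ H, 3 ≤ x) (hH' : ∀ x ∈ H', d + 3 ≤ x)
    {P : Prop} (h3 : 3 ∈ H ∨ P) (hP : P → K ≠ 3) (h0 : K = 0 → 2 ≤ H.count 3) :
    (K = 2 ∧ K' = 1 ∧ 2 ≤ d) ∨ (K = 5 ∧ (K' = 2 ∨ K' = 3)) ∨ (K = 4 ∧ K' = 5 ∧ d = 1 ∧ P) := by
  have c1 := congrArg (Multiset.count 1) e
  have c2 := congrArg (Multiset.count 2) e
  have c3 := congrArg (Multiset.count 3) e
  have z1 : H.count 1 = 0 := Multiset.count_eq_zero.2 fun h => by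
    have := hH 1 h; omega
  have z2 : H.count 2 = 0 := Multiset.count_eq_zero.2 fun h => by
    have := hH 2 h; omega
  have z1' : H'.count 1 = 0 := Multiset.count_eq_zero.2 fun h => by
    have := hH' 1 h; omega
  have z2' : H'.count 2 = 0 := Multiset.count_eq_zero.2 fun h => by
    have := hH' 2 h; omega
  have z3' : H'.count 3 = 0 := Multiset.count_eq_zero.2 fun h => by
    have := hH' 3 h; omega
  have p3 : 3 ∈ H → 1 ≤ H.count 3 := fun h => Multiset.one_le_count_iff_mem.2 h
  rw [Multiset.count_add, Multiset.count_add, z1, z1', add_zero, add_zero] at c1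
  rw [Multiset.count_add, Multiset.count_add, z2, z2', add_zero, add_zero] at c2
  rw [Multiset.count_add, Multiset.count_add, z3', add_zero] at c3
  interval_cases K <;> interval_cases K' <;>
    simp only [smc, Multiset.count_add, Multiset.count_zero, Multiset.count_singleton, zero_add] at c1 c2 c3
  all_goals
    (try split_ifs at c1 c2 c3) <;> first
      | (exfalso; omega)
      | (exfalso; have := h0 rfl; omega)
      | (rcases h3 with h3 | h3
         · exfalso; have := p3 h3; omega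
         · first
            | (exfalso; exact hP h3 rfl)
            | (right; right; exact ⟨rfl, rfl, by omega, h3⟩))
      | (left; exact ⟨rfl, rfl, by omega⟩)
      | (right; left; exact ⟨rfl, Or.inl rfl⟩)
      | (right; left; exact ⟨rfl, Or.inr rfl⟩)

theorem kap_le (e : Bool) {i : ℕ} (hi : i < 20) : kap e i ≤ 5 := by
  interval_cases i <;> cases e <;> decide

/-! ### First and last components -/

theorem gd_fb {A : BinaryTree Unit} (h : gd A) : fb A = false := by
  rcases h with rfl | ⟨_, h⟩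
  · rfl
  · exact hv_fb h

theorem gd_lastB {A : BinaryTree Unit} (h : gd A) : lastB A = false := by
  rcases h with rfl | ⟨_, h⟩
  · rfl
  · exact hv_last h

theorem hv_fs {A : BinaryTree Unit} (h : hv A) (h0 : A ≠ .nil) : gd (fs A) := by
  cases A with
  | nil => exact absurd rfl h0
  | node _ A X => exact h.1

theorem hv_lastI {A : BinaryTree Unit} (h : hv A) (h0 : A ≠ .nil) : gd (lastI A) := by
  induction A with
  | nil => exact absurd rfl h0
  | node _ A X _ ih =>
    by_cases hX : X = .nil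
    · subst hX; exact h.1
    · change gd (lastI (A △ X))
      rw [lastI_cons hX]
      exact ih h.2 hX

theorem fb_app {A C : BinaryTree Unit} (h : A ≠ .nil) : fb (app A C) = fb A := by
  cases A with
  | nil => exact absurd rfl h
  | node _ A X => rfl

theorem lastB_two (u : BinaryTree Unit) : lastB (app u (.nil △ (.nil △ .nil))) = true := by
  rw [lastB_app (by simp)]
  rfl

theorem pc_two (d : ℕ) : pc (d + 2) = (pc d △ .nil) △ .nil := rfl

/-- the mirrored words of class 1 -/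
theorem mT1 (h : Bare R B S) (d : ℕ) {j : ℕ} (hj : j = 1 ∨ j = 2 ∨ j = 11 ∨ (j = 18 ∧ B = .nil)) :
    4 ≤ len (aw R (pc (d + 2)) B S j) ∧
    (fb (aw R (pc (d + 2)) B S j) = true → sb (aw R (pc (d + 2)) B S j) = false) ∧
    (fb (fs (aw R (pc (d + 2)) B S j)) = true → sb (fs (aw R (pc (d + 2)) B S j)) = false) ∧
    (lastB (lastI (aw R (pc (d + 2)) B S j)) = true → len (lastI (aw R (pc (d + 2)) B S j)) ≤ 1) ∧
    (∀ u, aw R (pc (d + 2)) B S j ≠ app u (.nil △ (.nil △ .nil))) := by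
  have lR := len_pos h.R0
  have lS := len_pos h.S0
  have bR := hv_last h.hR
  have bS := hv_last h.hS
  have gR := gd_lastB (hv_lastI h.hR h.R0)
  have fS := hv_fb h.hS
  have gS := gd_fb (hv_fs h.hS h.S0)
  rw [pc_two]
  rcases hj with rfl | rfl | rfl | ⟨rfl, hB⟩
  · refine ⟨?_, ?_, ?_, ?_, ?_⟩
    · simp [aw, len, app]; omega
    · intro _; simp [aw, app, sb, fb, isNil]
    · intro h1; simp [aw, fs, fb] at h1
    · intro h1
      simp only [aw, app] at h1
      rw [lastI_cons (by simp), lastI_cons (by simp), lastI_cons h.R0, gR] at h1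
      cases h1
    · intro u e
      have h1 := congrArg lastB e
      rw [lastB_two] at h1
      simp only [aw, app] at h1
      rw [lastB_cons (by simp), lastB_cons (by simp), lastB_cons h.R0, bR] at h1
      cases h1
  · refine ⟨?_, ?_, ?_, ?_, ?_⟩
    · simp [aw, len, app, len_app]; omega
    · intro h1; simp [aw, app, fb, isNil] at h1
    · intro _; simp [aw, app, fs, sb, fb]
    · intro h1
      simp only [aw, app] at h1
      rw [lastI_cons (by simp), lastI_cons (app_ne (by simp)), lastI_app (by simp), lastI_one] at h1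
      cases h1
    · intro u e
      have e1 : aw R ((pc d △ .nil) △ .nil) B S 2 =
          app ((pc d △ .nil) △ (.nil △ R)) (.nil △ .nil) := rfl
      have e2 : app u (.nil △ (.nil △ .nil)) = app (app u (.nil △ .nil)) (.nil △ .nil) := by
        rw [H1.app_assoc]; rfl
      rw [e1, e2] at e
      have h1 := congrArg lastB (H1.app_snoc e).1
      rw [lastB_cons (by simp), lastB_cons h.R0, bR, lastB_app (by simp)] at h1
      cases h1
  · refine ⟨?_, ?_, ?_, ?_, ?_⟩
    · simp [aw, len, app, len_app]; omega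
    · intro h1
      simp only [aw] at h1
      rw [fb_app h.S0, fS] at h1
      cases h1
    · intro h1
      simp only [aw] at h1
      rw [fs_app h.S0, gS] at h1
      cases h1
    · intro h1
      simp only [aw, app] at h1
      rw [lastI_app (by simp), lastI_cons (by simp), lastI_cons (by simp)] at h1
      by_cases hB : B = .nil
      · subst hB; cases h1
      · rw [lastI_cons hB, gd_lastB (hv_lastI h.hB hB)] at h1
        cases h1
    · intro u e
      by_cases hB : B = .nil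
      · subst hB
        have e1 : aw R ((pc d △ .nil) △ .nil) .nil S 11 =
            app (app S (.nil △ ((pc d △ .nil) △ .nil))) (.nil △ .nil) := by
          rw [H1.app_assoc]; rfl
        have e2 : app u (.nil △ (.nil △ .nil)) = app (app u (.nil △ .nil)) (.nil △ .nil) := by
          rw [H1.app_assoc]; rfl
        rw [e1, e2] at e
        have h1 := congrArg lastB (H1.app_snoc e).1
        rw [lastB_app (by simp), lastB_cons (by simp), lastB_app (by simp)] at h1
        cases h1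
      · have h1 := congrArg lastB e
        rw [lastB_two] at h1
        simp only [aw, app] at h1
        rw [lastB_app (by simp), lastB_cons (by simp), lastB_cons (by simp), lastB_cons hB,
          hv_last h.hB] at h1
        cases h1
  · subst hB
    refine ⟨?_, ?_, ?_, ?_, ?_⟩
    · simp [aw, len, app, len_app]; omega
    · intro _
      change fb (app S _) = false
      rw [fb_app h.S0, fS]
    · intro h1; cases h1
    · intro _
      simp only [aw]
      rw [lastI_cons (app_ne (by simp)), lastI_app (by simp), lastI_cons (by simp), lastI_one]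
      rfl
    · intro u e
      have h1 := congrArg lastB e
      rw [lastB_two] at h1
      simp only [aw] at h1
      rw [lastB_cons (app_ne (by simp)), lastB_app (by simp), lastB_cons (by simp)] at h1
      cases h1

/-- the mirrored words of the classes 2 and 3 -/
theorem mT2 (h : Bare R B S) (d : ℕ) {j : ℕ}
    (hj : j ∈ [3, 4, 5, 7, 8, 12, 13, 14, 16, 19] ∨ (j = 18 ∧ B ≠ .nil)) :
    fb (aw R (pc (d + 2)) B S j) = false ∧ lastB (aw R (pc (d + 2)) B S j) = false := by
  have bR := hv_last h.hR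
  have bS := hv_last h.hS
  have fR := hv_fb h.hR
  have fS := hv_fb h.hS
  have nR : isNil R = false := isNil_f.2 h.R0
  have nS : isNil S = false := isNil_f.2 h.S0
  have hR0 := h.R0
  have hS0 := h.S0
  rw [pc_two]
  rcases hj with hj | ⟨rfl, hB⟩
  · simp only [List.mem_cons, List.not_mem_nil, or_false] at hj
    rcases hj with rfl | rfl | rfl | rfl | rfl | rfl | rfl | rfl | rfl | rfl
    · exact ⟨rfl, rfl⟩
    · refine ⟨?_, ?_⟩
      · simp only [aw]; rw [fb_app h.R0, fR]
      · simp only [aw]; rw [lastB_app (by simp)]; rfl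
    · refine ⟨?_, ?_⟩
      · simp only [aw]; rw [fb_app h.R0, fR]
      · simp only [aw]; rw [lastB_app (by simp)]; rfl
    · refine ⟨isNil_f.2 (app_ne (by simp)), ?_⟩
      simp only [aw]; rw [lastB_cons (by simp)]; rfl
    · refine ⟨nR, ?_⟩
      simp only [aw]; rw [lastB_cons (by simp)]; rfl
    · refine ⟨rfl, ?_⟩
      simp only [aw, app]
      rw [lastB_cons (by simp), lastB_cons (app_ne (by simp)), lastB_app (by simp), lastB_one, nS]
    · refine ⟨rfl, ?_⟩
      simp only [aw]; rw [lastB_cons h.S0, bS]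
    · refine ⟨?_, ?_⟩
      · by_cases hB : B = .nil
        · subst hB
          exact isNil_f.2 (app_ne (by simp))
        · simp only [aw]; rw [fb_app hB, hv_fb h.hB]
      · simp only [aw]
        rw [lastB_app (by simp), lastB_one]
        exact isNil_f.2 (app_ne (by simp))
    · refine ⟨rfl, ?_⟩
      simp only [aw]; rw [lastB_cons (by simp), lastB_cons h.S0, bS]
    · refine ⟨rfl, ?_⟩
      simp only [aw, app]; rw [lastB_cons (by simp)]; rfl
  · refine ⟨isNil_f.2 hB, ?_⟩
    simp only [aw]; rw [lastB_cons (app_ne (by simp)), lastB_app (by simp)]; rfl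

/-- the index lists of the classes -/
theorem kap_one {e : Bool} {j : ℕ} (hj : j < 20) (h : kap e j = 1) :
    j = 1 ∨ j = 2 ∨ j = 11 ∨ (j = 18 ∧ e = true) := by
  interval_cases j <;> cases e <;> simp_all [kap]

theorem kap_23 {e : Bool} {j : ℕ} (hj : j < 20) (h : kap e j = 2 ∨ kap e j = 3) :
    j ∈ [3, 4, 5, 7, 8, 12, 13, 14, 16, 19] ∨ (j = 18 ∧ e = false) := by
  interval_cases j <;> cases e <;> simp_all [kap]

theorem kap_5 {e : Bool} {j : ℕ} (hj : j < 20) (h : kap e j = 5) :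
    j = 9 ∨ j = 17 ∨ (j = 19 ∧ e = false) := by
  interval_cases j <;> cases e <;> simp_all [kap]

theorem kap_2 {e : Bool} {j : ℕ} (hj : j < 20) (h : kap e j = 2) :
    j = 3 ∨ j = 7 ∨ j = 8 ∨ j = 12 ∨ j = 14 ∨ (j = 13 ∧ e = false) ∨ (j = 18 ∧ e = false) ∨
      (j = 19 ∧ e = true) := by
  interval_cases j <;> cases e <;> simp_all [kap]

/-- **no common word**, from the classes -/
theorem no_common (h : Bare R B S) (h' : Bare R' B' S') {d : ℕ} {e e' : Bool}
    (he : e = true ↔ B = .nil) (he' : e' = true ↔ B' = .nil) {i j : ℕ} (hi : i < 20) (hj : j < 20)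
    (hK : (kap e i = 2 ∧ kap e' j = 1) ∨ (kap e i = 5 ∧ (kap e' j = 2 ∨ kap e' j = 3)) ∨
      (i = 16 ∧ e = false ∧ d = 0 ∧ kap e' j = 5)) :
    W R (ch 1) B S i ≠ aw R' (pc (d + 2)) B' S' j := by
  intro eq
  have c1 : ch 1 = .nil △ .nil := rfl
  rw [c1] at eq
  have lS := len_pos h.S0
  rcases hK with ⟨k1, k2⟩ | ⟨k1, k2⟩ | ⟨rfl, k1, rfl, k2⟩
  · have k3 := kap_one hj k2
    rw [he'] at k3
    obtain ⟨m1, m2, m3, m4, m5⟩ := mT1 h' d k3
    rw [← eq] at m1 m2 m3 m4 m5
    rcases kap_2 hi k1 with rfl | rfl | rfl | rfl | rfl | ⟨rfl, k4⟩ | ⟨rfl, k4⟩ | ⟨rfl, k4⟩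
    · simp [W, len] at m1
    · simp [W, len, app] at m1
    · simp [W, len, app] at m1
    · exact m5 (S △ B) rfl
    · have := m3 rfl
      simp [W, fs, app, sb, fb, isNil] at this
    · have hB : B ≠ .nil := fun hB => by rw [he.2 hB] at k4; cases k4
      have x1 : lastI (W R (.nil △ .nil) B S 13) = app B (.nil △ (.nil △ .nil)) := by
        simp only [W]
        rw [lastI_app (by simp), lastI_one]
      rw [x1] at m4
      have := m4 (by rw [lastB_app (by simp)]; rfl)
      rw [len_app] at this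
      simp [len] at this
    · have := m2 rfl
      simp [W, app, sb, fb, isNil] at this
    · simp [W, len, app] at m1
  · have k3 := kap_23 hj k2
    have k3' : j ∈ [3, 4, 5, 7, 8, 12, 13, 14, 16, 19] ∨ (j = 18 ∧ B' ≠ .nil) := by
      rcases k3 with k3 | ⟨k3, k4⟩
      · exact Or.inl k3
      · refine Or.inr ⟨k3, fun hB => ?_⟩
        rw [he'.2 hB] at k4
        cases k4
    obtain ⟨m1, m2⟩ := mT2 h' d k3'
    rw [← eq] at m1 m2
    rcases kap_5 hi k1 with rfl | rfl | ⟨rfl, k4⟩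
    · simp [W, lastB, isNil] at m2
    · simp [W, app, fb, isNil] at m1
    · simp only [W] at m2
      rw [lastB_cons (by simp), lastB_one] at m2
      cases m2
  · have hB : B ≠ .nil := fun hB => by rw [he.2 hB] at k1; cases k1
    have x1 : fs (W R (.nil △ .nil) B S 16) = fs S := by
      simp only [W]
      exact fs_app h.S0 _
    have x2 : ¬ gd (.nil △ .nil) := by
      rintro (h1 | ⟨_, h1⟩)
      · simp at h1
      · exact not_hv_nil _ h1
    have x3 := hv_fs h.hS h.S0
    rcases kap_5 hj k2 with rfl | rfl | ⟨rfl, k4⟩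
    · rw [eq] at x1
      rw [← x1] at x3
      exact x2 x3
    · have h1 := congrArg len eq
      simp only [W, aw, len, len_app, pc] at h1
      omega
    · rw [eq] at x1
      rw [← x1] at x3
      exact x2 x3

end H12

/-- the classes of a common content -/
theorem NodeM.classes (h : NodeM k 0 R B S) (h' : NodeM k q' R' B' S') (hq : 1 ≤ q') (w0 w0' : X k)
    {i j : ℕ} (hi : i < 20) (hj : j < 20) {e e' : Bool} (he : e = true ↔ B = .nil)
    (he' : e' = true ↔ B' = .nil)
    (hc : cont (H1.wX R B S 0 w0 i).1 = cont (mX R' B' S' q' w0' j).1) :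
    (kap e i = 2 ∧ kap e' j = 1 ∧ 2 ≤ q') ∨ (kap e i = 5 ∧ (kap e' j = 2 ∨ kap e' j = 3)) ∨
      (kap e i = 4 ∧ kap e' j = 5 ∧ q' = 1 ∧
        (e = false ∧ (i = 13 ∨ i = 16 ∨ i = 18 ∨ i = 19))) := by
  have mn : ∀ {t : BinaryTree Unit}, t = .nil ↔ Tsq.mir t = .nil := by
    intro t
    constructor
    · rintro rfl; rfl
    · intro h1
      by_contra h2
      exact mir_ne h2 h1
  obtain ⟨H, a1, a2, a3, a4⟩ := cont_aw h.a0d (e := e) (he.trans mn) hi
  have a3 := a3 h.a0d.mem
  have a4 := a4 h.a0d.mem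
  obtain ⟨H', b1, b2, b3, b4⟩ := cont_aw h'.a0d (e := e') (he'.trans mn) hj
  rw [← cont_wX, h.word' w0 hi, h'.word' w0' hj, a1, b1] at hc
  refine H12.cmpK hq (H12.kap_le e hi) (H12.kap_le e' hj) hc a2 b2
    (P := e = false ∧ (i = 13 ∨ i = 16 ∨ i = 18 ∨ i = 19)) ?_ ?_ a4
  · rcases a3 with a3 | ⟨_, _, a3⟩
    · exact Or.inl a3
    · exact Or.inr a3
  · rintro ⟨rfl, rfl | rfl | rfl | rfl⟩ <;> decide

/-- **no common word** of a right bare window, `c = 3`, and a mirrored one, `c' ≥ 4` -/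
theorem NodeM.disRM (h : NodeM k 0 R B S) (h' : NodeM k q' R' B' S') (hq : 1 ≤ q') (w0 w0' : X k)
    {i j : ℕ} (hi : i < 20) (hj : j < 20) :
    H1.wX R B S 0 w0 i ≠ mX R' B' S' q' w0' j := by
  intro eq
  obtain ⟨e, he⟩ : ∃ e : Bool, e = true ↔ B = .nil := by
    by_cases hB : B = .nil
    · exact ⟨true, by simp [hB]⟩
    · exact ⟨false, by simp [hB]⟩
  obtain ⟨e', he'⟩ : ∃ e : Bool, e = true ↔ B' = .nil := by
    by_cases hB : B' = .nil
    · exact ⟨true, by simp [hB]⟩
    · exact ⟨false, by simp [hB]⟩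
  have mn : ∀ {t : BinaryTree Unit}, t = .nil ↔ Tsq.mir t = .nil := by
    intro t
    constructor
    · rintro rfl; rfl
    · intro h1
      by_contra h2
      exact mir_ne h2 h1
  have hK := h.classes h' hq w0 w0' hi hj he he' (by rw [eq])
  obtain ⟨d, rfl⟩ : ∃ d, q' = d + 1 := ⟨q' - 1, by omega⟩
  have e1 := congrArg Subtype.val eq
  rw [wX_eq h.dat h.size w0 hi, h'.word' w0' hj] at e1
  refine H12.no_common h.bareR h'.bareM he (he'.trans mn) hi hj ?_ e1
  rcases hK with ⟨k1, k2, _⟩ | hK | ⟨k1, k2, k3, k4, k5⟩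
  · exact Or.inl ⟨k1, k2⟩
  · exact Or.inr (Or.inl hK)
  · refine Or.inr (Or.inr ⟨?_, k4, by omega, k2⟩)
    subst k4
    rcases k5 with rfl | rfl | rfl | rfl
    · exact absurd k1 (by decide)
    · rfl
    · exact absurd k1 (by decide)
    · exact absurd k1 (by decide)

end HM

open HM Equiv Pool.Agent.Work.MP_8f87b2_co

variable {k : ℕ} {F F' : Set (Cyc k)} {g g' : DG k}

/-- TYPE A0 with `c ≥ 4` -/
def TyA04 (F : Set (Cyc k)) (g : DG k) : Prop :=
  ∃ (q : ℕ) (R B S : BinaryTree Unit) (w0 : X k), NodeM k q R B S ∧ 1 ≤ q ∧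
    mX R B S q w0 0 ≠ mX R B S q w0 10 ∧
    F = {cyc (mX R B S q w0 0)} ∧ g = gad20M (mX R B S q w0)

/-- TYPE B0 with `c ≥ 4` -/
def TyB04 (F : Set (Cyc k)) (g : DG k) : Prop :=
  ∃ (q : ℕ) (R B S : BinaryTree Unit) (w0 : X k), NodeM k q R B S ∧ 1 ≤ q ∧
    mX R B S q w0 0 ≠ mX R B S q w0 10 ∧
    ¬ TT.SameCycle (mX R B S q w0 1) (mX R B S q w0 2) ∧
    (B = .nil → ¬ TT.SameCycle (mX R B S q w0 1) (mX R B S q w0 18) ∧
      ¬ TT.SameCycle (mX R B S q w0 2) (mX R B S q w0 18)) ∧
    F = {cyc (mX R B S q w0 0), cyc (mX R B S q w0 1), cyc (mX R B S q w0 2)} ∧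
    g = gadSM (mX R B S q w0)

theorem TyA04.toA0 (h : TyA04 F g) : TyA0 F g := by
  obtain ⟨q, R, B, S, w0, h1, _, h2, h3, h4⟩ := h
  exact ⟨q, R, B, S, w0, h1, h2, h3, h4⟩

theorem TyB04.toB0 (h : TyB04 F g) : TyB0 F g := by
  obtain ⟨q, R, B, S, w0, h1, _, h2, h3, h4, h5, h6⟩ := h
  exact ⟨q, R, B, S, w0, h1, h2, h3, h4, h5, h6⟩

/-- the words of a mirrored bare window, `c ≥ 4`, in both types -/
theorem TyA04.words (h : TyA04 F g) : ∀ w ∈ g.B, ∃ (q : ℕ) (R B S : BinaryTree Unit) (w0 : X k) (i : ℕ),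
    NodeM k q R B S ∧ 1 ≤ q ∧ i < 20 ∧ w = mX R B S q w0 i := by
  obtain ⟨q, R, B, S, w0, h1, hq, hne, rfl, rfl⟩ := h
  intro w hw
  obtain ⟨i, hi, rfl⟩ := mem_gad20M.1 hw
  exact ⟨q, R, B, S, w0, i, h1, hq, hi, rfl⟩

theorem TyB04.words (h : TyB04 F g) : ∀ w ∈ g.B, ∃ (q : ℕ) (R B S : BinaryTree Unit) (w0 : X k) (i : ℕ),
    NodeM k q R B S ∧ 1 ≤ q ∧ i < 20 ∧ w = mX R B S q w0 i := by
  obtain ⟨q, R, B, S, w0, h1, hq, hne, h12, h18, rfl, rfl⟩ := h
  intro w hw
  obtain ⟨i, hi, h9, rfl⟩ := mem_gadSM.1 hw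
  exact ⟨q, R, B, S, w0, i, h1, hq, hi, rfl⟩

/-- **row W-R3-A0** -/
theorem TyR3.disA0 (h : TyR3 F g) (h' : TyA04 F' g') : ∀ w ∈ g.B, w ∉ g'.B := by
  intro w hw hw'
  obtain ⟨R, B, S, w0, i, h1, -, -, hi, e1, hm⟩ := h.words w hw
  obtain ⟨q', R', B', S', w0', j, h1', hq, hj, e2⟩ := h'.words w hw'
  exact h1.disRM h1' hq w0 w0' hi hj (e1.symm.trans e2)

/-- **row W-R3-B0** -/
theorem TyR3.disB0 (h : TyR3 F g) (h' : TyB04 F' g') : ∀ w ∈ g.B, w ∉ g'.B := by
  intro w hw hw'
  obtain ⟨R, B, S, w0, i, h1, -, -, hi, e1, hm⟩ := h.words w hw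
  obtain ⟨q', R', B', S', w0', j, h1', hq, hj, e2⟩ := h'.words w hw'
  exact h1.disRM h1' hq w0 w0' hi hj (e1.symm.trans e2)

/-- **row W-S3-A0** -/
theorem TyS3.disA0 (h : TyS3 F g) (h' : TyA04 F' g') : ∀ w ∈ g.B, w ∉ g'.B := by
  intro w hw hw'
  obtain ⟨R, B, S, w0, i, h1, -, hi, -, e1, hm⟩ := h.words w hw
  obtain ⟨q', R', B', S', w0', j, h1', hq, hj, e2⟩ := h'.words w hw'
  exact h1.disRM h1' hq w0 w0' hi hj (e1.symm.trans e2)

/-- **row W-S3-B0** -/
theorem TyS3.disB0 (h : TyS3 F g) (h' : TyB04 F' g') : ∀ w ∈ g.B, w ∉ g'.B := by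
  intro w hw hw'
  obtain ⟨R, B, S, w0, i, h1, -, hi, -, e1, hm⟩ := h.words w hw
  obtain ⟨q', R', B', S', w0', j, h1', hq, hj, e2⟩ := h'.words w hw'
  exact h1.disRM h1' hq w0 w0' hi hj (e1.symm.trans e2)

end Pool.OddHC
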